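import Mathlib
import Pool.Agent.H509R3.TraceObs
import Pool.Agent.H509R3.TraceAdm
import Pool.Agent.H509R3.CFDim

set_option autoImplicit false

/-!
Traces in continued fraction semigroups: for an alphabet all of whose letters are congruent to `1`
modulo `8`, no number `m ^ 2 - 2`, where `m` is odd and `-1` is a square modulo `m`, is the trace
of a product of even length; if the alphabet contains `9` and `17` all these numbers are
admissible. Such alphabets exist with Hausdorff dimension larger than `1/2`. So the lower bound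
for the number of the matrices with a given admissible trace, asked for in Q2, fails.

The reciprocity obstruction for `m = 5 ^ k` is in the starting files (`Pool.Agent.H509R3`).
-/

namespace Pool.Agent.Results.MP_f5ee21_nt.MultiplicityBound

open Filter Topology NumberTheorySymbols
open Pool.Agent.H509R3

/-- The matrix of a letter. -/
def mat (b : ℕ) : Matrix (Fin 2) (Fin 2) ℤ := !![(b : ℤ), 1; 1, 0]

/-- `Γ_A`: the products of even (positive) length of the matrices of the letters of `A`. -/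
def Gam (A : Finset ℕ) : Set (Matrix (Fin 2) (Fin 2) ℤ) :=
  {M | ∃ l : List ℕ, l ≠ [] ∧ Even l.length ∧ (∀ b ∈ l, b ∈ A) ∧ M = (l.map mat).prod}

/-- `t` is admissible: it is a trace of `Γ_A` modulo every `q ≥ 1`. -/
def Admissible (A : Finset ℕ) (t : ℤ) : Prop :=
  ∀ q : ℤ, 1 ≤ q → ∃ M ∈ Gam A, M.trace ≡ t [ZMOD q]

/-- The elements of `Γ_A` of trace `t`. -/
def Fiber (A : Finset ℕ) (t : ℤ) : Set (Matrix (Fin 2) (Fin 2) ℤ) := {M | M ∈ Gam A ∧ M.trace = t}

/-- The set of the real numbers `[a_0, a_1, a_2, ...]` with all `a_j ∈ A`, as limits of the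
convergents. -/
def cantor (A : Finset ℕ) : Set ℝ :=
  {x : ℝ | ∃ a : ℕ → ℕ, (∀ j, a j ∈ A) ∧
    Tendsto (fun n : ℕ =>
      ((List.map (fun j : ℕ => (!![(a j : ℝ), 1; 1, 0] : Matrix (Fin 2) (Fin 2) ℝ))
        (List.range (n + 1))).prod 0 0) /
      ((List.map (fun j : ℕ => (!![(a j : ℝ), 1; 1, 0] : Matrix (Fin 2) (Fin 2) ℝ))
        (List.range (n + 1))).prod 1 0)) atTop (𝓝 x)}

/-- An alphabet: a finite set of at least two positive integers. -/
def Alphabet (A : Finset ℕ) : Prop := (∀ a ∈ A, 1 ≤ a) ∧ 2 ≤ A.card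

/-- if `t + 2 = m ^ 2`, `-1` is a square modulo `m`, and `p s - q r = 1`, `p + s = t`, `r` odd then
`J(p | r) = 1` -/
lemma jac_one' (m p q r s : ℕ) (hsq : IsSquare (-1 : ZMod m)) (hr : r % 2 = 1)
    (hdet : (p : ℤ) * s - q * r = 1) (ht : (p : ℤ) + s = (m : ℤ) ^ 2 - 2) :
    J((p : ℤ) | r) = 1 := by
  rw [jacobiSym]
  apply List.prod_eq_one
  intro x hx
  rw [List.mem_pmap] at hx
  obtain ⟨ℓ, hℓ, rfl⟩ := hx
  have hprime : ℓ.Prime := Nat.prime_of_mem_primeFactorsList hℓ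
  have hdvd : ℓ ∣ r := Nat.dvd_of_mem_primeFactorsList hℓ
  have : Fact ℓ.Prime := ⟨hprime⟩
  have hr0 : ((r : ℕ) : ZMod ℓ) = 0 := (ZMod.natCast_eq_zero_iff _ _).mpr hdvd
  have hdet' : (p : ZMod ℓ) * s = 1 := by
    have := congrArg (Int.cast : ℤ → ZMod ℓ) hdet
    push_cast at this
    rw [hr0] at this
    simpa using this
  have ht' : (p : ZMod ℓ) + s = (m : ZMod ℓ) ^ 2 - 2 := by
    have := congrArg (Int.cast : ℤ → ZMod ℓ) ht
    push_cast at this
    exact this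
  have hp0 : (p : ZMod ℓ) ≠ 0 := by
    intro h
    rw [h, zero_mul] at hdet'
    exact zero_ne_one hdet'
  have hkey : (p : ZMod ℓ) * (m : ZMod ℓ) ^ 2 = (p + 1) ^ 2 := by
    have : (p : ZMod ℓ) * (p + s) = p * ((m : ZMod ℓ) ^ 2 - 2) := by rw [ht']
    linear_combination -this + hdet'
  have hp0' : ((p : ℤ) : ZMod ℓ) ≠ 0 := by simpa using hp0
  rw [legendreSym.eq_one_iff ℓ hp0']
  by_cases hm : ((m : ZMod ℓ)) = 0
  · have hml : ℓ ∣ m := (ZMod.natCast_eq_zero_iff _ _).mp hm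
    rw [hm] at hkey
    have h1 : (p : ZMod ℓ) + 1 = 0 := by
      have : ((p : ZMod ℓ) + 1) ^ 2 = 0 := by rw [← hkey]; ring
      exact pow_eq_zero_iff (two_ne_zero) |>.mp this
    have h2 : (p : ZMod ℓ) = -1 := by linear_combination h1
    obtain ⟨z, hz⟩ := hsq
    push_cast
    rw [h2]
    refine ⟨ZMod.castHom hml (ZMod ℓ) z, ?_⟩
    rw [← map_mul, ← hz, map_neg, map_one]
  · push_cast
    refine ⟨((p : ZMod ℓ) + 1) / m, ?_⟩
    field_simp
    rw [hkey]

lemma sq_mod_eight (m : ℕ) (hm : m % 2 = 1) : (m : ℤ) ^ 2 % 8 = 1 := by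
  obtain ⟨j, rfl⟩ : ∃ j, m = 2 * j + 1 := ⟨m / 2, by omega⟩
  obtain ⟨c, hc⟩ := Nat.even_mul_succ_self j
  have hc' : (j : ℤ) * (j + 1) = c + c := by exact_mod_cast hc
  have : (((2 * j + 1 : ℕ) : ℤ)) ^ 2 = 8 * c + 1 := by
    push_cast
    linear_combination 4 * hc'
  rw [this]
  omega

/-- The obstruction. -/
theorem no_trace' (m : ℕ) (hm : m % 2 = 1) (hsq : IsSquare (-1 : ZMod m)) (l : List ℕ)
    (hl : ∀ b ∈ l, b % 8 = 1) (hev : Even l.length) :
    ((l.map mat).prod).trace ≠ (m : ℤ) ^ 2 - 2 := by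
  intro htr
  have hpe : (l.map mat).prod =
      !![((colA l).1 : ℤ), ((colB l).1 : ℤ); ((colA l).2 : ℤ), ((colB l).2 : ℤ)] := prod_eq l
  rw [hpe, Matrix.trace_fin_two_of] at htr
  have hI := Inv_list l hl
  have hd := det_list l
  rw [hev.neg_one_pow] at hd
  have hlen : l.length % 12 % 2 = 0 := by
    have := Nat.even_iff.mp hev
    omega
  have h25 : (m : ℤ) ^ 2 % 8 = 1 := sq_mod_eight m hm
  have hm : ((colA l).1 + (colB l).2) % 8 = 7 := by
    have : (((colA l).1 : ℤ) + (colB l).2) % 8 = 7 := by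
      rw [htr]; omega
    omega
  have hfin : (colA l).2 % 2 = 1 ∧ sy (colA l).1 (colA l).2 = -1 := by
    rcases hI with h | h | h | h | h | h | h | h | h | h | h | h <;>
      obtain ⟨h1, h2, h3, h4, h5, h6⟩ := h <;> first
        | (exfalso; omega)
        | exact ⟨by omega, h6⟩
  obtain ⟨ho, hsy⟩ := hfin
  have hj := jac_one' m (colA l).1 (colB l).1 (colA l).2 (colB l).2 hsq ho hd htr
  rw [sy, if_pos ho, hj] at hsy
  norm_num at hsy

lemma exists_uv' (n m : ℕ) (hm : m % 2 = 1) (hn : 1 ≤ n) : ∃ i j : ℕ,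
    (((9 + 8 * i : ℕ) : ZMod n) + 2) * (((9 + 8 * j : ℕ) : ZMod n) + 2) = (m : ZMod n) ^ 2 := by
  -- a prime congruent to 3 mod 8 larger than everything
  have h3 : IsUnit ((3 : ℕ) : ZMod 8) := by
    rw [ZMod.isUnit_iff_coprime]; decide
  obtain ⟨u, hu, hup, hu8⟩ := Nat.forall_exists_prime_gt_and_eq_mod h3 (8 * n + 11)
  have hu8' : u % 8 = 3 := by
    have := (ZMod.natCast_eq_natCast_iff' u 3 8).mp (by exact_mod_cast hu8)
    simpa using this
  have hcop : Nat.Coprime u (8 * n) := by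
    rw [hup.coprime_iff_not_dvd]
    intro h
    have := Nat.le_of_dvd (by omega) h
    omega
  have : NeZero (8 * n) := ⟨by omega⟩
  set w : ZMod (8 * n) := (u : ZMod (8 * n))⁻¹ * (m : ZMod (8 * n)) ^ 2 with hw
  have huw : (u : ZMod (8 * n)) * w = (m : ZMod (8 * n)) ^ 2 := by
    rw [hw, ← mul_assoc, ZMod.coe_mul_inv_eq_one u hcop, one_mul]
  set v : ℕ := w.val + 8 * n * 11 with hv
  have hvw : (v : ZMod (8 * n)) = w := by
    rw [hv, Nat.cast_add, ZMod.natCast_zmod_val, Nat.cast_mul, ZMod.natCast_self, zero_mul, add_zero]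
  have huv : ((u * v : ℕ) : ZMod (8 * n)) = ((m ^ 2 : ℕ) : ZMod (8 * n)) := by
    push_cast
    rw [hvw]
    exact huw
  have huv' : u * v ≡ m ^ 2 [MOD (8 * n)] := (ZMod.natCast_eq_natCast_iff _ _ _).mp huv
  have h8 : u * v ≡ m ^ 2 [MOD 8] := huv'.of_mul_right n
  have hn' : u * v ≡ m ^ 2 [MOD n] := huv'.of_mul_left 8
  have h25 : m ^ 2 % 8 = 1 := by
    have := sq_mod_eight m hm
    exact_mod_cast this
  have hv8 : v % 8 = 3 := by
    have h1 : (u * v) % 8 = 1 := by rw [← h25]; exact h8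
    rw [Nat.mul_mod, hu8'] at h1
    have h2 : v % 8 < 8 := Nat.mod_lt _ (by norm_num)
    interval_cases h : v % 8 <;> simp_all
  refine ⟨(u - 11) / 8, (v - 11) / 8, ?_⟩
  have e1 : 9 + 8 * ((u - 11) / 8) + 2 = u := by omega
  have e2 : 9 + 8 * ((v - 11) / 8) + 2 = v := by omega
  have e3 : ((9 + 8 * ((u - 11) / 8) : ℕ) : ZMod n) + 2 = (u : ZMod n) := by
    conv_rhs => rw [← e1]
    push_cast; ring
  have e4 : ((9 + 8 * ((v - 11) / 8) : ℕ) : ZMod n) + 2 = (v : ZMod n) := by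
    conv_rhs => rw [← e2]
    push_cast; ring
  rw [e3, e4]
  have := (ZMod.natCast_eq_natCast_iff _ _ _).mpr hn'
  push_cast at this
  exact this

/-- admissibility of `m ^ 2 - 2` for odd `m` -/
theorem admissible' (m : ℕ) (hm : m % 2 = 1) (A : Finset ℕ) (h9 : 9 ∈ A) (h17 : 17 ∈ A) :
    Admissible A ((m : ℤ) ^ 2 - 2) := by
  intro q hq
  obtain ⟨n, rfl⟩ : ∃ n : ℕ, q = n := ⟨q.toNat, by omega⟩
  have hn : 1 ≤ n := by exact_mod_cast hq
  obtain ⟨i, j, hij⟩ := exists_uv' n m hm hn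
  obtain ⟨L1, o1, m1, p1⟩ := virt n hn i
  obtain ⟨L2, o2, m2, p2⟩ := virt n hn j
  obtain ⟨L0, o0, m0, p0⟩ := virt n hn (n - 1)
  refine ⟨_, ⟨L1 ++ (L0 ++ (L2 ++ L0)), ?_, ?_, ?_, rfl⟩, ?_⟩
  · intro h
    rw [List.append_eq_nil_iff] at h
    rw [h.1] at o1
    simp at o1
  · simp only [List.length_append]
    rw [Nat.odd_iff] at o0 o1 o2
    rw [Nat.even_iff]
    omega
  · intro b hb
    have hb2 : b = 9 ∨ b = 17 := by
      simp only [List.mem_append] at hb
      rcases hb with h | h | h | h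
      · exact m1 b h
      · exact m0 b h
      · exact m2 b h
      · exact m0 b h
    rcases hb2 with h | h
    · rw [h]; exact h9
    · rw [h]; exact h17
  · rw [← ZMod.intCast_eq_intCast_iff]
    set l := L1 ++ (L0 ++ (L2 ++ L0)) with hl
    have hmap : ((Matrix.trace ((List.map mat l).prod) : ℤ) : ZMod n)
        = Matrix.trace ((List.map (fm n) l).prod) := by
      have h1 : (Int.castRingHom (ZMod n)).mapMatrix ((List.map mat l).prod)
          = (List.map (fm n) l).prod := by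
        rw [map_list_prod, List.map_map]
        congr 1
        apply List.map_congr_left
        intro b _
        ext i j
        fin_cases i <;> fin_cases j <;> simp [fm, mat]
      rw [← h1]
      simp [Matrix.trace_fin_two]
    rw [hmap, hl, List.map_append, List.map_append, List.map_append, List.prod_append,
      List.prod_append, List.prod_append, p1, p0, p2, trace_four n hn, hij]
    push_cast
    ring

/-- no matrix of trace `m ^ 2 - 2` -/
lemma fiber_empty (A : Finset ℕ) (hA : ∀ b ∈ A, b % 8 = 1) (m : ℕ) (hm : m % 2 = 1)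
    (hsq : IsSquare (-1 : ZMod m)) : Fiber A ((m : ℤ) ^ 2 - 2) = ∅ := by
  ext M
  simp only [Fiber, Set.mem_setOf_eq, Set.mem_empty_iff_false, iff_false]
  rintro ⟨⟨l, -, hev, hl, rfl⟩, htr⟩
  exact no_trace' m hm hsq l (fun b hb => hA b (hl b hb)) hev htr

/-- **Theorem (negative answer to Q2).** (1) Let all letters of `A` be congruent to `1` modulo `8`.
If `m` is odd and `-1` is a square modulo `m` then no element of `Γ_A` has trace `m ^ 2 - 2`; if
moreover `9, 17 ∈ A` then `m ^ 2 - 2` is admissible. (2) There is an alphabet of this kind,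
containing `9` and `17`, with Hausdorff dimension larger than `1/2`. (3) So the assertion of Q2
does not hold. -/
theorem result :
    (∀ A : Finset ℕ, (∀ b ∈ A, b % 8 = 1) → ∀ m : ℕ, m % 2 = 1 → IsSquare (-1 : ZMod m) →
      Fiber A ((m : ℤ) ^ 2 - 2) = ∅ ∧ (9 ∈ A → 17 ∈ A → Admissible A ((m : ℤ) ^ 2 - 2))) ∧
    (∃ A : Finset ℕ, Alphabet A ∧ (∀ b ∈ A, b % 8 = 1) ∧ 9 ∈ A ∧ 17 ∈ A ∧
      (1 / 2 : ENNReal) < dimH (cantor A)) ∧
    ¬ (∀ A : Finset ℕ, Alphabet A → (1 / 2 : ENNReal) < dimH (cantor A) →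
      ∀ ε : ℝ, 0 < ε → ∃ N₀ : ℕ, ∀ N : ℕ, N₀ ≤ N → ∀ t : ℤ, (N : ℤ) ≤ t → t < 2 * N →
        Admissible A t →
          (N : ℝ) ^ (2 * (dimH (cantor A)).toReal - 1 - ε) < ((Fiber A t).ncard : ℝ)) := by
  have h1 : ∀ A : Finset ℕ, (∀ b ∈ A, b % 8 = 1) → ∀ m : ℕ, m % 2 = 1 →
      IsSquare (-1 : ZMod m) →
      Fiber A ((m : ℤ) ^ 2 - 2) = ∅ ∧ (9 ∈ A → 17 ∈ A → Admissible A ((m : ℤ) ^ 2 - 2)) :=
    fun A hA m hm hsq => ⟨fiber_empty A hA m hm hsq, fun h9 h17 => admissible' m hm A h9 h17⟩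
  have h2 : ∃ A : Finset ℕ, Alphabet A ∧ (∀ b ∈ A, b % 8 = 1) ∧ 9 ∈ A ∧ 17 ∈ A ∧
      (1 / 2 : ENNReal) < dimH (cantor A) := by
    obtain ⟨K, hK, hdim⟩ := exists_dim
    refine ⟨(Finset.range K).image (fun i => 8 * i + 9), ⟨?_, ?_⟩, ?_, ?_, ?_, hdim⟩
    · intro a ha
      obtain ⟨i, _, rfl⟩ := Finset.mem_image.mp ha
      omega
    · rw [Finset.card_image_of_injective _ (fun a b h => by simpa using h), Finset.card_range]
      exact hK
    · intro a ha
      obtain ⟨i, _, rfl⟩ := Finset.mem_image.mp ha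
      omega
    · exact Finset.mem_image.mpr ⟨0, Finset.mem_range.mpr (by omega), rfl⟩
    · exact Finset.mem_image.mpr ⟨1, Finset.mem_range.mpr (by omega), rfl⟩
  refine ⟨h1, h2, fun H => ?_⟩
  obtain ⟨A, hA, hmod, h9, h17, hdim⟩ := h2
  obtain ⟨N₀, hN⟩ := H A hA hdim 1 one_pos
  -- `m = (2 (N₀ + 1)) ^ 2 + 1`
  set j : ℕ := 2 * (N₀ + 1) with hj
  set m : ℕ := j ^ 2 + 1 with hm
  have hodd : m % 2 = 1 := by
    have : j ^ 2 = 2 * (2 * (N₀ + 1) ^ 2) := by rw [hj]; ring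
    omega
  have hsq : IsSquare (-1 : ZMod m) := by
    refine ⟨(j : ZMod m), ?_⟩
    have h0 : ((m : ℕ) : ZMod m) = 0 := ZMod.natCast_self m
    rw [hm] at h0
    push_cast at h0
    linear_combination -h0
  obtain ⟨he, had⟩ := h1 A hmod m hodd hsq
  have hm2 : 2 ≤ m ^ 2 := by
    have : 2 ≤ m := by
      have : 1 ≤ j ^ 2 := Nat.one_le_pow _ _ (by omega)
      omega
    nlinarith
  have hbig : N₀ ≤ m ^ 2 - 2 := by
    have h3 : N₀ + 1 ≤ j := by omega
    have h4 : j ≤ j ^ 2 := by nlinarith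
    have h5 : m ≤ m ^ 2 := by nlinarith
    have h6 : N₀ + 2 ≤ m := by omega
    omega
  have hcast : ((m ^ 2 - 2 : ℕ) : ℤ) = (m : ℤ) ^ 2 - 2 := by
    rw [Nat.cast_sub hm2]
    push_cast
    ring
  have hpos : 0 < m ^ 2 - 2 := by
    have h4 : 4 ≤ j ^ 2 := by nlinarith
    have h5 : 5 ≤ m := by omega
    have h6 : 25 ≤ m ^ 2 := by nlinarith
    omega
  have := hN (m ^ 2 - 2) hbig ((m : ℤ) ^ 2 - 2) hcast.le (by
    rw [← hcast]
    have : (0 : ℤ) < ((m ^ 2 - 2 : ℕ) : ℤ) := by exact_mod_cast hpos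
    linarith) (had h9 h17)
  rw [he, Set.ncard_empty, Nat.cast_zero] at this
  have h7 : (0 : ℝ) ≤ ((m ^ 2 - 2 : ℕ) : ℝ) ^ (2 * (dimH (cantor A)).toReal - 1 - 1) :=
    Real.rpow_nonneg (Nat.cast_nonneg _) _
  linarith

end Pool.Agent.Results.MP_f5ee21_nt.MultiplicityBound
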